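import Mathlib

set_option autoImplicit false
open Filter Topology Finset

namespace Pool.Agent.W65.TotP

/-- The product of `1 - 1/p` over the primes `p ≤ z` dividing `n`. -/
noncomputable def h (z n : ℕ) : ℝ :=
  ∏ p ∈ (Finset.range (z+1)).filter Nat.Prime, if p ∣ n then (1 - (p:ℝ)⁻¹) else 1

/-- The sum of `1/p` over the primes `p > z` dividing `n`. -/
noncomputable def t (z n : ℕ) : ℝ := ∑ p ∈ n.primeFactors.filter (fun p => z < p), (p:ℝ)⁻¹

/-- The sum of `1/(p-1)` over the primes dividing `n`. -/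
noncomputable def u (n : ℕ) : ℝ := ∑ p ∈ n.primeFactors, ((p:ℝ) - 1)⁻¹

lemma one_sub_sum_le (s : Finset ℕ) (f : ℕ → ℝ) (h0 : ∀ i ∈ s, 0 ≤ f i) (h1 : ∀ i ∈ s, f i ≤ 1) :
    1 - ∑ i ∈ s, f i ≤ ∏ i ∈ s, (1 - f i) := by
  classical
  induction s using Finset.induction_on with
  | empty => simp
  | insert a s ha ih =>
    rw [Finset.sum_insert ha, Finset.prod_insert ha]
    have ih' := ih (fun i hi => h0 i (Finset.mem_insert_of_mem hi))
      (fun i hi => h1 i (Finset.mem_insert_of_mem hi))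
    have ha0 := h0 a (Finset.mem_insert_self a s)
    have ha1 := h1 a (Finset.mem_insert_self a s)
    have hs : 0 ≤ ∑ i ∈ s, f i := Finset.sum_nonneg (fun i hi => h0 i (Finset.mem_insert_of_mem hi))
    nlinarith [mul_le_mul_of_nonneg_left ih' (sub_nonneg.mpr ha1), mul_nonneg ha0 hs]

lemma totient_real (n : ℕ) : (Nat.totient n : ℝ) = n * ∏ p ∈ n.primeFactors, (1 - (p:ℝ)⁻¹) := by
  have := Nat.totient_eq_mul_prod_factors n
  have h2 : ((Nat.totient n : ℚ) : ℝ) = ((n * ∏ p ∈ n.primeFactors, (1 - (p:ℚ)⁻¹) : ℚ) : ℝ) := by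
    rw [this]
  push_cast at h2
  exact h2

lemma fac_nonneg {p : ℕ} (hp : p.Prime) : 0 ≤ 1 - (p:ℝ)⁻¹ := by
  have : (1:ℝ) ≤ p := by exact_mod_cast hp.one_lt.le
  have := inv_le_one_of_one_le₀ this
  linarith

lemma fac_le_one (p : ℕ) : 1 - (p:ℝ)⁻¹ ≤ 1 := by
  have : (0:ℝ) ≤ (p:ℝ)⁻¹ := by positivity
  linarith

lemma h_eq (z n : ℕ) (hn : n ≠ 0) :
    h z n = ∏ p ∈ n.primeFactors.filter (fun p => p ≤ z), (1 - (p:ℝ)⁻¹) := by
  unfold h
  rw [Finset.prod_ite, Finset.prod_const_one, mul_one]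
  apply Finset.prod_congr _ (fun _ _ => rfl)
  ext p
  simp only [Finset.mem_filter, Finset.mem_range, Nat.mem_primeFactors]
  constructor
  · rintro ⟨⟨h1, h2⟩, h3⟩; exact ⟨⟨h2, h3, hn⟩, by omega⟩
  · rintro ⟨⟨h1, h2, h3⟩, h4⟩; exact ⟨⟨by omega, h1⟩, h2⟩

lemma h_nonneg (z n : ℕ) : 0 ≤ h z n := by
  unfold h
  apply Finset.prod_nonneg
  intro p hp
  split_ifs
  · exact fac_nonneg (Finset.mem_filter.mp hp).2
  · norm_num

lemma h_le_one (z n : ℕ) : h z n ≤ 1 := by
  unfold h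
  apply Finset.prod_le_one
  · intro p hp
    split_ifs
    · exact fac_nonneg (Finset.mem_filter.mp hp).2
    · norm_num
  · intro p hp
    split_ifs
    · exact fac_le_one p
    · norm_num

lemma t_nonneg (z n : ℕ) : 0 ≤ t z n := by
  unfold t
  exact Finset.sum_nonneg (fun p _ => by positivity)

/-- comparison of `φ(n)` with `n h(n)` -/
lemma totient_le_h (z n : ℕ) : (Nat.totient n : ℝ) ≤ n * h z n := by
  rcases eq_or_ne n 0 with rfl | hn
  · simp
  rw [totient_real, h_eq z n hn]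
  apply mul_le_mul_of_nonneg_left _ (by positivity)
  rw [← Finset.prod_filter_mul_prod_filter_not n.primeFactors (fun p => p ≤ z)]
  apply mul_le_of_le_one_right
  · exact Finset.prod_nonneg (fun p hp => fac_nonneg (Nat.prime_of_mem_primeFactors (Finset.mem_filter.mp hp).1))
  · exact Finset.prod_le_one (fun p hp => fac_nonneg (Nat.prime_of_mem_primeFactors (Finset.mem_filter.mp hp).1)) (fun p _ => fac_le_one p)

lemma h_le_totient (z n : ℕ) : n * h z n ≤ (Nat.totient n : ℝ) + n * t z n := by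
  rcases eq_or_ne n 0 with rfl | hn
  · simp
  rw [totient_real, h_eq z n hn]
  rw [← Finset.prod_filter_mul_prod_filter_not n.primeFactors (fun p => p ≤ z)]
  set A := ∏ p ∈ n.primeFactors.filter (fun p => p ≤ z), (1 - (p:ℝ)⁻¹) with hA
  have hA0 : 0 ≤ A := Finset.prod_nonneg (fun p hp => fac_nonneg (Nat.prime_of_mem_primeFactors (Finset.mem_filter.mp hp).1))
  have hA1 : A ≤ 1 := Finset.prod_le_one (fun p hp => fac_nonneg (Nat.prime_of_mem_primeFactors (Finset.mem_filter.mp hp).1)) (fun p _ => fac_le_one p)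
  have key : 1 - t z n ≤ ∏ p ∈ n.primeFactors.filter (fun p => ¬ p ≤ z), (1 - (p:ℝ)⁻¹) := by
    have := one_sub_sum_le (n.primeFactors.filter (fun p => ¬ p ≤ z)) (fun p => (p:ℝ)⁻¹)
      (fun p _ => by positivity) (fun p hp => by
        have hp := Nat.prime_of_mem_primeFactors (Finset.mem_filter.mp hp).1
        have : (1:ℝ) ≤ p := by exact_mod_cast hp.one_lt.le
        exact inv_le_one_of_one_le₀ this)
    simpa [t, not_le] using this
  have ht := t_nonneg z n
  have hn0 : (0:ℝ) ≤ n := by positivity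
  have h1 : A ≤ A * ∏ p ∈ n.primeFactors.filter (fun p => ¬ p ≤ z), (1 - (p:ℝ)⁻¹) + t z n := by
    nlinarith [mul_le_mul_of_nonneg_left key hA0, mul_nonneg hA0 ht]
  nlinarith [mul_le_mul_of_nonneg_left h1 hn0]

/-- `h z` is periodic with period `z!` -/
lemma h_mod (z n : ℕ) : h z n = h z (n % z.factorial) := by
  unfold h
  apply Finset.prod_congr rfl
  intro p hp
  have hp' := Finset.mem_filter.mp hp
  have hdvd : p ∣ z.factorial := by
    apply Nat.dvd_factorial hp'.2.pos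
    have := Finset.mem_range.mp hp'.1
    omega
  have : p ∣ n ↔ p ∣ n % z.factorial := (Nat.dvd_mod_iff hdvd).symm
  simp only [this]

/-- general bound for sums over prime divisors -/
lemma sum_primeFactors_le (N : ℕ) (S : Finset ℕ) (f : ℕ → ℝ) (hf : ∀ p, 0 ≤ f p)
    (hS : ∀ n ∈ Finset.Icc 1 N, ∀ p ∈ n.primeFactors, f p ≠ 0 → p ∈ S) :
    ∑ n ∈ Finset.Icc 1 N, ∑ p ∈ n.primeFactors, f p ≤ N * ∑ p ∈ S, f p / p := by
  have h1 : ∀ n ∈ Finset.Icc 1 N, ∑ p ∈ n.primeFactors, f p ≤ ∑ p ∈ S, if p ∣ n then f p else 0 := by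
    intro n hn
    rw [← Finset.sum_filter]
    have : ∑ p ∈ n.primeFactors, f p = ∑ p ∈ n.primeFactors.filter (fun p => f p ≠ 0), f p := by
      rw [Finset.sum_filter]
      apply Finset.sum_congr rfl
      intro p _
      split_ifs with hh
      · rfl
      · simpa using hh
    rw [this]
    apply Finset.sum_le_sum_of_subset_of_nonneg
    · intro p hp
      have hp' := Finset.mem_filter.mp hp
      exact Finset.mem_filter.mpr ⟨hS n hn p hp'.1 hp'.2, Nat.dvd_of_mem_primeFactors hp'.1⟩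
    · intro p _ _
      exact hf p
  calc ∑ n ∈ Finset.Icc 1 N, ∑ p ∈ n.primeFactors, f p
      ≤ ∑ n ∈ Finset.Icc 1 N, ∑ p ∈ S, (if p ∣ n then f p else 0) := Finset.sum_le_sum h1
    _ = ∑ p ∈ S, ∑ n ∈ Finset.Icc 1 N, (if p ∣ n then f p else 0) := Finset.sum_comm
    _ ≤ ∑ p ∈ S, N * (f p / p) := by
        apply Finset.sum_le_sum
        intro p _
        rw [← Finset.sum_filter, Finset.sum_const, nsmul_eq_mul]
        have hc : ((Finset.Icc 1 N).filter (fun n => p ∣ n)).card = N / p := by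
          rw [← Nat.card_multiples' N p]
          congr 1
          ext k
          simp only [Finset.mem_filter, Finset.mem_Icc, Finset.mem_range]
          constructor
          · rintro ⟨⟨h1, h2⟩, h3⟩; exact ⟨by omega, by omega, h3⟩
          · rintro ⟨h1, h2, h3⟩; exact ⟨⟨by omega, by omega⟩, h3⟩
        rw [hc]
        have : ((N / p : ℕ) : ℝ) ≤ (N:ℝ) / p := Nat.cast_div_le
        calc ((N / p : ℕ) : ℝ) * f p ≤ (N:ℝ) / p * f p := mul_le_mul_of_nonneg_right this (hf p)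
          _ = N * (f p / p) := by ring
    _ = N * ∑ p ∈ S, f p / p := by rw [Finset.mul_sum]

lemma sum_t_le (z N : ℕ) (hz : 1 ≤ z) : ∑ n ∈ Finset.Icc 1 N, t z n ≤ N / z := by
  have h0 : ∀ n, t z n = ∑ p ∈ n.primeFactors, (if z < p then (p:ℝ)⁻¹ else 0) := by
    intro n; unfold t; rw [Finset.sum_filter]
  simp only [h0]
  have := sum_primeFactors_le N (Finset.Ioc z (max z N)) (fun p => if z < p then (p:ℝ)⁻¹ else 0)
    (by intro p; split_ifs <;> positivity)
    (by
      intro n hn p hp hne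
      have hn' := Finset.mem_Icc.mp hn
      have h2 : z < p := by
        by_contra hcon
        simp [hcon] at hne
      have h3 : p ≤ n := Nat.le_of_mem_primeFactors hp
      exact Finset.mem_Ioc.mpr ⟨h2, le_max_of_le_right (h3.trans hn'.2)⟩)
  refine this.trans ?_
  rw [div_eq_mul_inv]
  apply mul_le_mul_of_nonneg_left _ (by positivity)
  calc ∑ p ∈ Finset.Ioc z (max z N), (if z < p then (p:ℝ)⁻¹ else 0) / (p:ℝ)
      ≤ ∑ p ∈ Finset.Ioc z (max z N), ((p:ℝ)^2)⁻¹ := by
        apply Finset.sum_le_sum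
        intro p hp
        have hp' := Finset.mem_Ioc.mp hp
        rw [if_pos hp'.1, div_eq_mul_inv, sq, mul_inv]
    _ ≤ (z:ℝ)⁻¹ - ((max z N : ℕ):ℝ)⁻¹ := sum_Ioc_inv_sq_le_sub (by omega) (le_max_left _ _)
    _ ≤ (z:ℝ)⁻¹ := by
        have : (0:ℝ) ≤ ((max z N : ℕ):ℝ)⁻¹ := by positivity
        linarith

lemma sum_u_le (N : ℕ) : ∑ n ∈ Finset.Icc 1 N, u n ≤ N := by
  unfold u
  have := sum_primeFactors_le N (Finset.Icc 2 N) (fun p => if 2 ≤ p then ((p:ℝ)-1)⁻¹ else 0)
    (by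
      intro p
      split_ifs with hh
      · have : (2:ℝ) ≤ p := by exact_mod_cast hh
        apply inv_nonneg.mpr; linarith
      · exact le_rfl)
    (by
      intro n hn p hp hne
      have hn' := Finset.mem_Icc.mp hn
      have h2 := (Nat.prime_of_mem_primeFactors hp).two_le
      have h3 : p ≤ n := Nat.le_of_mem_primeFactors hp
      exact Finset.mem_Icc.mpr ⟨h2, h3.trans hn'.2⟩)
  have e1 : ∑ n ∈ Finset.Icc 1 N, ∑ p ∈ n.primeFactors, ((p:ℝ) - 1)⁻¹ =
      ∑ n ∈ Finset.Icc 1 N, ∑ p ∈ n.primeFactors, (if 2 ≤ p then ((p:ℝ)-1)⁻¹ else 0) := by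
    apply Finset.sum_congr rfl
    intro n _
    apply Finset.sum_congr rfl
    intro p hp
    rw [if_pos (Nat.prime_of_mem_primeFactors hp).two_le]
  rw [e1]
  refine this.trans ?_
  have hsum : ∑ p ∈ Finset.Icc 2 N, (if 2 ≤ p then ((p:ℝ)-1)⁻¹ else 0) / (p:ℝ) ≤ 1 := by
    rcases Nat.lt_or_ge N 2 with hN | hN
    · rw [Finset.Icc_eq_empty (by omega)]; simp
    have : ∀ M : ℕ, 2 ≤ M → ∑ p ∈ Finset.Icc 2 M, (if 2 ≤ p then ((p:ℝ)-1)⁻¹ else 0) / (p:ℝ) = 1 - 1/(M:ℝ) := by
      intro M hM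
      induction M, hM using Nat.le_induction with
      | base => norm_num
      | succ M hM ih =>
        rw [← Finset.insert_Icc_right_eq_Icc_add_one (by omega), Finset.sum_insert (by simp), ih, if_pos (by omega)]
        have : (M:ℝ) ≠ 0 := by
          have : (0:ℝ) < M := by exact_mod_cast (by omega : 0 < M)
          exact this.ne'
        have h2 : (M:ℝ) + 1 ≠ 0 := by positivity
        push_cast
        rw [add_sub_cancel_right]
        field_simp
        ring
    rw [this N hN]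
    have : (0:ℝ) ≤ 1/(N:ℝ) := by positivity
    linarith
  calc (N:ℝ) * _ ≤ N * 1 := mul_le_mul_of_nonneg_left hsum (by positivity)
    _ = N := mul_one _

/-- Markov's inequality for a finite sum. -/
lemma markov (N : ℕ) (f : ℕ → ℝ) (hf : ∀ n, 0 ≤ f n) (B δ : ℝ) (hδ : 0 < δ)
    (hB : ∑ n ∈ Finset.Icc 1 N, f n ≤ B) :
    (((Finset.Icc 1 N).filter (fun n => δ < f n)).card : ℝ) ≤ B / δ := by
  rw [le_div_iff₀ hδ]
  calc (((Finset.Icc 1 N).filter (fun n => δ < f n)).card : ℝ) * δ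
      = ∑ n ∈ (Finset.Icc 1 N).filter (fun n => δ < f n), δ := by
        rw [Finset.sum_const, nsmul_eq_mul]
    _ ≤ ∑ n ∈ (Finset.Icc 1 N).filter (fun n => δ < f n), f n := by
        apply Finset.sum_le_sum
        intro n hn
        exact (Finset.mem_filter.mp hn).2.le
    _ ≤ ∑ n ∈ Finset.Icc 1 N, f n := by
        apply Finset.sum_le_sum_of_subset_of_nonneg (Finset.filter_subset _ _)
        intro n _ _; exact hf n
    _ ≤ B := hB

/-- number of naturals in an open interval of reals -/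
lemma ncard_Ioo_le (a b : ℝ) (hab : a ≤ b) (S : Finset ℕ) (hS : ∀ k ∈ S, a < (k:ℝ) ∧ (k:ℝ) < b) :
    (S.card : ℝ) ≤ b - a + 1 := by
  rcases S.eq_empty_or_nonempty with rfl | hne
  · simp; linarith
  set m := S.min' hne
  set M := S.max' hne
  have hm := hS m (S.min'_mem hne)
  have hM := hS M (S.max'_mem hne)
  have hmM : m ≤ M := S.min'_le_max' hne
  have hsub : S ⊆ Finset.Icc m M := by
    intro k hk
    exact Finset.mem_Icc.mpr ⟨S.min'_le k hk, S.le_max' k hk⟩
  have hc := Finset.card_le_card hsub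
  rw [Nat.card_Icc] at hc
  have : (S.card : ℝ) ≤ (M:ℝ) + 1 - m := by
    have : S.card + m ≤ M + 1 := by omega
    have : ((S.card + m : ℕ) : ℝ) ≤ ((M + 1 : ℕ) : ℝ) := by exact_mod_cast this
    push_cast at this
    linarith
  linarith [hm.1, hM.2]

/-- count of `n` with `n (1 + h z n)` in an open interval `(x, y)` -/
lemma count_h (z : ℕ) (x y : ℝ) (hxy : x ≤ y) (S : Finset ℕ)
    (hS : ∀ n ∈ S, x < (n:ℝ) * (1 + h z n) ∧ (n:ℝ) * (1 + h z n) < y) :
    (S.card : ℝ) ≤ (y - x) + z.factorial := by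
  classical
  set P := z.factorial with hP
  have hPpos : 0 < P := Nat.factorial_pos z
  have hmaps : ∀ n ∈ S, n % P ∈ Finset.range P := fun n _ => Finset.mem_range.mpr (Nat.mod_lt _ hPpos)
  rw [Finset.card_eq_sum_card_fiberwise hmaps]
  push_cast
  have hr : ∀ r ∈ Finset.range P, (((S.filter (fun n => n % P = r)).card : ℕ) : ℝ) ≤ (y - x) / P + 1 := by
    intro r _
    set v := 1 + h z r with hv
    have hv1 : 1 ≤ v := by have := h_nonneg z r; linarith
    have hvpos : 0 < v := by linarith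
    have hPr : (0:ℝ) < P := by exact_mod_cast hPpos
    set T := (S.filter (fun n => n % P = r)).image (fun n => n / P) with hT
    have hTc : (S.filter (fun n => n % P = r)).card = T.card := by
      rw [hT, Finset.card_image_of_injOn]
      intro a ha b hb hab
      have ha' := (Finset.mem_filter.mp ha).2
      have hb' := (Finset.mem_filter.mp hb).2
      simp only at hab
      rw [← Nat.div_add_mod a P, ← Nat.div_add_mod b P, ha', hb', hab]
    rw [hTc]
    rcases T.eq_empty_or_nonempty with hTe | hTne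
    · rw [hTe]; simp
      have : 0 ≤ (y - x) / P := by apply div_nonneg <;> linarith
      linarith
    have hbound : ∀ k ∈ T, (x / v - r) / P < (k:ℝ) ∧ (k:ℝ) < (y / v - r) / P := by
      intro k hk
      obtain ⟨n, hn, rfl⟩ := Finset.mem_image.mp hk
      have hn' := Finset.mem_filter.mp hn
      have hb := hS n hn'.1
      have hhr : h z n = h z r := by rw [h_mod z n, ← hP, hn'.2]
      rw [hhr, ← hv] at hb
      have hnr : (n:ℝ) = P * ((n / P : ℕ):ℝ) + r := by
        have := Nat.div_add_mod n P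
        rw [hn'.2] at this
        exact_mod_cast this.symm
      constructor
      · rw [div_lt_iff₀ hPr]
        have := hb.1
        have h3 : x / v < n := by rw [div_lt_iff₀ hvpos]; exact this
        nlinarith
      · rw [lt_div_iff₀ hPr]
        have h3 : (n:ℝ) < y / v := by rw [lt_div_iff₀ hvpos]; exact hb.2
        nlinarith
    obtain ⟨k0, hk0⟩ := hTne
    have hb0 := hbound k0 hk0
    have hle := ncard_Ioo_le ((x / v - r) / P) ((y / v - r) / P) (by linarith [hb0.1, hb0.2]) T hbound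
    refine hle.trans ?_
    have e : (y / v - r) / P - (x / v - r) / P = ((y - x) / v) / P := by
      field_simp
      ring
    rw [e]
    have : (y - x) / v ≤ y - x := div_le_self (by linarith) hv1
    have : (y - x) / v / P ≤ (y - x) / P := by
      apply div_le_div_of_nonneg_right this hPr.le
    linarith
  calc ∑ r ∈ Finset.range P, (((S.filter (fun n => n % P = r)).card : ℕ) : ℝ)
      ≤ ∑ r ∈ Finset.range P, ((y - x) / P + 1) := Finset.sum_le_sum hr
    _ = (y - x) + P := by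
        rw [Finset.sum_const, Finset.card_range, nsmul_eq_mul]
        have : (P:ℝ) ≠ 0 := by exact_mod_cast hPpos.ne'
        field_simp

/-- the truncation level -/
noncomputable def zz (x : ℕ) : ℕ := Nat.findGreatest (fun z => z.factorial * z ≤ x) x

lemma zz_spec (x : ℕ) : (zz x).factorial * zz x ≤ x :=
  Nat.findGreatest_spec (P := fun z => z.factorial * z ≤ x) (m := 0) (Nat.zero_le _) (by simp)

lemma zz_le (x : ℕ) : zz x ≤ x := Nat.findGreatest_le x

lemma le_zz (x z : ℕ) (hz : z.factorial * z ≤ x) : z ≤ zz x := by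
  refine Nat.le_findGreatest (P := fun z => z.factorial * z ≤ x) ?_ hz
  exact (Nat.le_mul_of_pos_left z (Nat.factorial_pos z)).trans hz

lemma zz_pos (x : ℕ) (hx : 1 ≤ x) : 1 ≤ zz x := le_zz x 1 (by simpa using hx)

lemma zz_mono : Monotone zz := by
  intro x y hxy
  exact le_zz y (zz x) ((zz_spec x).trans hxy)

lemma tendsto_zz : Tendsto zz atTop atTop := by
  apply tendsto_atTop_atTop.mpr
  intro b
  refine ⟨b.factorial * b, fun a ha => le_zz a b ha⟩

/-- the function `F` -/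
noncomputable def F (x : ℕ) : ℝ := x / Real.sqrt (zz x)

lemma F_nonneg (x : ℕ) : 0 ≤ F x := by unfold F; positivity

lemma tendsto_F : Tendsto F atTop atTop := by
  have h1 : Tendsto (fun x : ℕ => Real.sqrt (x:ℝ)) atTop atTop :=
    Real.tendsto_sqrt_atTop.comp tendsto_natCast_atTop_atTop
  refine tendsto_atTop_mono' atTop ?_ h1
  filter_upwards [eventually_ge_atTop 1] with x hx
  unfold F
  have hz1 := zz_pos x hx
  have hz2 := zz_le x
  have hpos : 0 < Real.sqrt (zz x) := Real.sqrt_pos.mpr (by exact_mod_cast hz1)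
  rw [le_div_iff₀ hpos]
  calc Real.sqrt (x:ℝ) * Real.sqrt (zz x) ≤ Real.sqrt (x:ℝ) * Real.sqrt (x:ℝ) := by
        apply mul_le_mul_of_nonneg_left _ (Real.sqrt_nonneg _)
        exact Real.sqrt_le_sqrt (by exact_mod_cast hz2)
    _ = x := Real.mul_self_sqrt (by positivity)

/-- main counting bound -/
lemma count_le (x : ℕ) (hx : 1 ≤ x) :
    ((Set.ncard {n : ℕ | (x : ℝ) < (n : ℝ) + (Nat.totient n : ℝ) ∧
              (n : ℝ) + (Nat.totient n : ℝ) < (x : ℝ) + F x} : ℕ) : ℝ) ≤ 6 * F x := by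
  classical
  have hz1 : 1 ≤ zz x := zz_pos x hx
  set z := zz x with hz
  have hzr : (1:ℝ) ≤ z := by exact_mod_cast hz1
  set s := Real.sqrt (z:ℝ) with hs
  have hs1 : 1 ≤ s := by rw [hs]; exact Real.one_le_sqrt.mpr hzr
  have hspos : 0 < s := by linarith
  have hss : s * s = z := Real.mul_self_sqrt (by linarith)
  have hF : F x = x / s := rfl
  have hx0 : (0:ℝ) ≤ x := by positivity
  have hFx : F x ≤ x := by rw [hF]; exact div_le_self hx0 hs1
  have hsub : {n : ℕ | (x : ℝ) < (n : ℝ) + (Nat.totient n : ℝ) ∧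
              (n : ℝ) + (Nat.totient n : ℝ) < (x : ℝ) + F x} ⊆ 
        (((Finset.Icc 1 (2*x)).filter (fun n => s⁻¹ < t z n) ∪
          (Finset.Icc 1 (2*x)).filter (fun n => (x:ℝ) < (n:ℝ) * (1 + h z n) ∧
            (n:ℝ) * (1 + h z n) < x + 3 * F x) : Finset ℕ) : Set ℕ) := by
    intro n hn
    obtain ⟨h1, h2⟩ := hn
    have hn0 : n ≠ 0 := by
      rintro rfl
      simp at h1
      linarith
    have hn2 : (n:ℝ) ≤ 2 * x := by
      have : (0:ℝ) ≤ (Nat.totient n : ℝ) := by positivity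
      linarith
    have hn2' : n ≤ 2 * x := by exact_mod_cast hn2
    have hmem : n ∈ Finset.Icc 1 (2*x) := Finset.mem_Icc.mpr ⟨by omega, hn2'⟩
    by_cases ht : s⁻¹ < t z n
    · rw [Finset.coe_union]
      left
      exact Finset.mem_coe.mpr (Finset.mem_filter.mpr ⟨hmem, ht⟩)
    · rw [Finset.coe_union]
      right
      refine Finset.mem_coe.mpr (Finset.mem_filter.mpr ⟨hmem, ?_, ?_⟩)
      · have := totient_le_h z n
        nlinarith
      · have h3 := h_le_totient z n
        have h4 : (n:ℝ) * t z n ≤ 2 * F x := by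
          rw [hF]
          calc (n:ℝ) * t z n ≤ (2 * x) * s⁻¹ :=
                mul_le_mul hn2 (not_lt.mp ht) (t_nonneg z n) (by positivity)
            _ = 2 * (x / s) := by rw [div_eq_mul_inv]; ring
        nlinarith
  have hfin := Finset.finite_toSet ((Finset.Icc 1 (2*x)).filter (fun n => s⁻¹ < t z n) ∪
          (Finset.Icc 1 (2*x)).filter (fun n => (x:ℝ) < (n:ℝ) * (1 + h z n) ∧
            (n:ℝ) * (1 + h z n) < x + 3 * F x))
  have hc := Set.ncard_le_ncard hsub hfin
  rw [Set.ncard_coe_finset] at hc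
  have hc2 := hc.trans (Finset.card_union_le _ _)
  have hA : (((Finset.Icc 1 (2*x)).filter (fun n => s⁻¹ < t z n)).card : ℝ) ≤ 2 * F x := by
    have := markov (2*x) (t z) (t_nonneg z) ((2*x : ℕ) / z) s⁻¹ (by positivity) (sum_t_le z (2*x) hz1)
    refine this.trans (le_of_eq ?_)
    rw [hF, ← hss]
    push_cast
    field_simp
  have hB : (((Finset.Icc 1 (2*x)).filter (fun n : ℕ => (x:ℝ) < (n:ℝ) * (1 + h z n) ∧
            (n:ℝ) * (1 + h z n) < x + 3 * F x)).card : ℝ) ≤ 3 * F x + z.factorial := by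
    have := count_h z x (x + 3 * F x) (by have := F_nonneg x; linarith)
      ((Finset.Icc 1 (2*x)).filter (fun n => (x:ℝ) < (n:ℝ) * (1 + h z n) ∧
            (n:ℝ) * (1 + h z n) < x + 3 * F x)) (fun n hn => (Finset.mem_filter.mp hn).2)
    linarith
  have hC : (z.factorial : ℝ) ≤ F x := by
    rw [hF, le_div_iff₀ hspos]
    have h1 : (z.factorial : ℝ) * z ≤ x := by exact_mod_cast zz_spec x
    have h2 : s ≤ z := by rw [← hss]; nlinarith
    have h3 : (0:ℝ) ≤ z.factorial := by positivity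
    nlinarith [mul_le_mul_of_nonneg_left h2 h3]
  have hc3 : ((Set.ncard {n : ℕ | (x : ℝ) < (n : ℝ) + (Nat.totient n : ℝ) ∧
              (n : ℝ) + (Nat.totient n : ℝ) < (x : ℝ) + F x} : ℕ) : ℝ) ≤
      (((Finset.Icc 1 (2*x)).filter (fun n => s⁻¹ < t z n)).card : ℝ) +
      (((Finset.Icc 1 (2*x)).filter (fun n : ℕ => (x:ℝ) < (n:ℝ) * (1 + h z n) ∧
            (n:ℝ) * (1 + h z n) < x + 3 * F x)).card : ℝ) := by exact_mod_cast hc2
  linarith

/-- `n / φ(n) ≤ exp (u n)` -/
lemma ratio_le (n : ℕ) (hn : n ≠ 0) : (n:ℝ) / (Nat.totient n : ℝ) ≤ Real.exp (u n) := by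
  have hφ : (0:ℝ) < Nat.totient n := by exact_mod_cast Nat.totient_pos.mpr (Nat.pos_of_ne_zero hn)
  rw [div_le_iff₀ hφ, totient_real]
  have hn0 : (0:ℝ) < n := by positivity
  have hprod : 1 ≤ Real.exp (u n) * ∏ p ∈ n.primeFactors, (1 - (p:ℝ)⁻¹) := by
    unfold u
    rw [Real.exp_sum, ← Finset.prod_mul_distrib]
    have e1 : (1:ℝ) = ∏ p ∈ n.primeFactors, (1:ℝ) := by rw [Finset.prod_const_one]
    refine e1.trans_le ?_
    apply Finset.prod_le_prod
    · intro i _; norm_num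
    · intro p hp
      have hpp := Nat.prime_of_mem_primeFactors hp
      have hp2 : (2:ℝ) ≤ p := by exact_mod_cast hpp.two_le
      have hp1 : (0:ℝ) < p - 1 := by linarith
      have h1 : ((p:ℝ) - 1)⁻¹ + 1 ≤ Real.exp (((p:ℝ) - 1)⁻¹) := Real.add_one_le_exp _
      have h2 : 0 ≤ 1 - (p:ℝ)⁻¹ := fac_nonneg hpp
      calc (1:ℝ) = (((p:ℝ) - 1)⁻¹ + 1) * (1 - (p:ℝ)⁻¹) := by
            field_simp
            ring
        _ ≤ _ := mul_le_mul_of_nonneg_right h1 h2
  nlinarith

/-- The density one set. -/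
def A : Set ℕ := {n | (n:ℝ) / (Nat.totient n : ℝ) ≤ Real.sqrt (Real.sqrt (zz n))}

lemma tendsto_ratio :
    Tendsto (fun n : ℕ => F n / (Nat.totient n : ℝ)) (atTop ⊓ 𝓟 A) (𝓝 0) := by
  have h1 : Tendsto (fun n : ℕ => (Real.sqrt (Real.sqrt (zz n)))⁻¹) atTop (𝓝 0) := by
    apply tendsto_inv_atTop_zero.comp
    apply Real.tendsto_sqrt_atTop.comp
    apply Real.tendsto_sqrt_atTop.comp
    exact tendsto_natCast_atTop_atTop.comp tendsto_zz
  have h2 : Tendsto (fun n : ℕ => (Real.sqrt (Real.sqrt (zz n)))⁻¹) (atTop ⊓ 𝓟 A) (𝓝 0) :=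
    h1.mono_left inf_le_left
  refine tendsto_of_tendsto_of_tendsto_of_le_of_le' tendsto_const_nhds h2 ?_ ?_
  · exact Eventually.of_forall (fun n => div_nonneg (F_nonneg n) (by positivity))
  · have hA : ∀ᶠ n in (atTop ⊓ 𝓟 A : Filter ℕ), n ∈ A := by
      exact Filter.eventually_inf_principal.mpr (Eventually.of_forall (fun n hn => hn))
    have hge : ∀ᶠ n in (atTop ⊓ 𝓟 A : Filter ℕ), 1 ≤ n := (eventually_ge_atTop 1).filter_mono inf_le_left
    filter_upwards [hA, hge] with n hn hn1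
    have hz1 : (1:ℝ) ≤ zz n := by exact_mod_cast zz_pos n hn1
    set q := Real.sqrt (Real.sqrt (zz n)) with hq
    have hqq : q * q = Real.sqrt (zz n) := Real.mul_self_sqrt (Real.sqrt_nonneg _)
    have hsq : 1 ≤ Real.sqrt (zz n) := Real.one_le_sqrt.mpr hz1
    have hq1 : 1 ≤ q := Real.one_le_sqrt.mpr hsq
    have hφ : (0:ℝ) < Nat.totient n := by exact_mod_cast Nat.totient_pos.mpr (by omega)
    have hn' : (n:ℝ) / (Nat.totient n : ℝ) ≤ q := hn
    calc F n / (Nat.totient n : ℝ) = ((n:ℝ) / (Nat.totient n : ℝ)) / (q * q) := by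
          rw [hqq]; unfold F; rw [div_div, div_div, mul_comm]
      _ ≤ q / (q * q) := div_le_div_of_nonneg_right hn' (by positivity)
      _ = q⁻¹ := by field_simp

lemma u_nonneg (n : ℕ) : 0 ≤ u n := by
  unfold u
  apply Finset.sum_nonneg
  intro p hp
  have hpp := Nat.prime_of_mem_primeFactors hp
  have hp2 : (2:ℝ) ≤ p := by exact_mod_cast hpp.two_le
  apply inv_nonneg.mpr; linarith

lemma density_A : Tendsto (fun N : ℕ => ((A ∩ Set.Iio N).ncard : ℝ) / (N : ℝ)) atTop (𝓝 1) := by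
  classical
  rw [Metric.tendsto_atTop]
  intro ε hε
  -- choose K with 1/K < ε/2
  obtain ⟨K, hK⟩ := exists_nat_gt (2/ε)
  have hKpos : (0:ℝ) < K := lt_trans (by positivity) hK
  -- n0 such that sqrt sqrt zz n ≥ exp K for n ≥ n0
  have ht : Tendsto (fun n : ℕ => Real.sqrt (Real.sqrt (zz n))) atTop atTop := by
    apply Real.tendsto_sqrt_atTop.comp
    apply Real.tendsto_sqrt_atTop.comp
    exact tendsto_natCast_atTop_atTop.comp tendsto_zz
  obtain ⟨n0, hn0⟩ := (ht.eventually_ge_atTop (Real.exp K)).exists_forall_of_atTop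
  obtain ⟨N1, hN1⟩ := exists_nat_gt (2 * ((n0:ℝ) + 1) / ε)
  refine ⟨max N1 1, fun N hN => ?_⟩
  have hN1' : N1 ≤ N := le_trans (le_max_left _ _) hN
  have hNpos : 1 ≤ N := le_trans (le_max_right _ _) hN
  have hNr : (0:ℝ) < N := by exact_mod_cast hNpos
  -- complement
  have hcompl : (Set.Iio N \ (A ∩ Set.Iio N)) ⊆
      ((Finset.range (n0 + 1) ∪ (Finset.Icc 1 N).filter (fun n => (K:ℝ) < u n) : Finset ℕ) : Set ℕ) := by
    intro n hn
    obtain ⟨h1, h2⟩ := hn
    have h1' : n < N := h1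
    have h3 : n ∉ A := fun h => h2 ⟨h, h1⟩
    rw [Finset.coe_union]
    by_cases hlt : n < n0 + 1
    · left; exact Finset.mem_coe.mpr (Finset.mem_range.mpr hlt)
    · right
      refine Finset.mem_coe.mpr (Finset.mem_filter.mpr ⟨Finset.mem_Icc.mpr ⟨by omega, by omega⟩, ?_⟩)
      by_contra hcon
      apply h3
      have h4 := ratio_le n (by omega)
      have h5 : Real.exp (u n) ≤ Real.exp K := Real.exp_le_exp.mpr (not_lt.mp hcon)
      exact h4.trans (h5.trans (hn0 n (by omega)))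
  have hcard : ((Set.Iio N \ (A ∩ Set.Iio N)).ncard : ℝ) ≤ (n0 + 1) + N / K := by
    have h1 := Set.ncard_le_ncard hcompl (Finset.finite_toSet _)
    rw [Set.ncard_coe_finset] at h1
    have h2 := h1.trans (Finset.card_union_le _ _)
    rw [Finset.card_range] at h2
    have h3 := markov N u u_nonneg N K hKpos (sum_u_le N)
    have h4 : ((Set.Iio N \ (A ∩ Set.Iio N)).ncard : ℝ) ≤ ((n0 + 1 : ℕ) : ℝ) +
      (((Finset.Icc 1 N).filter (fun n => (K:ℝ) < u n)).card : ℝ) := by exact_mod_cast h2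
    push_cast at h4
    linarith
  have hIio : (Set.Iio N).ncard = N := by
    rw [← Finset.coe_Iio, Set.ncard_coe_finset, Nat.card_Iio]
  have hfin : (Set.Iio N).Finite := Set.finite_Iio N
  have hsum : (Set.Iio N \ (A ∩ Set.Iio N)).ncard + (A ∩ Set.Iio N).ncard = (Set.Iio N).ncard :=
    Set.ncard_sdiff_add_ncard_of_subset Set.inter_subset_right hfin
  rw [hIio] at hsum
  have hsumr : ((Set.Iio N \ (A ∩ Set.Iio N)).ncard : ℝ) + ((A ∩ Set.Iio N).ncard : ℝ) = N := by
    exact_mod_cast hsum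
  rw [Real.dist_eq]
  have e : ((A ∩ Set.Iio N).ncard : ℝ) / N - 1 = -(((Set.Iio N \ (A ∩ Set.Iio N)).ncard : ℝ) / N) := by
    field_simp
    linarith
  rw [e, abs_neg, abs_of_nonneg (by positivity), div_lt_iff₀ hNr]
  have h5 : (N:ℝ) / K < ε / 2 * N := by
    rw [div_lt_iff₀ hKpos]
    have : 2 < K * ε := by
      rw [div_lt_iff₀ hε] at hK; exact hK
    nlinarith
  have h6 : ((n0:ℝ) + 1) < ε / 2 * N := by
    have : 2 * ((n0:ℝ) + 1) / ε < N := lt_of_lt_of_le hN1 (by exact_mod_cast hN1')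
    rw [div_lt_iff₀ hε] at this
    linarith
  linarith

theorem main :
    ∃ F : ℕ → ℝ, Tendsto F atTop atTop ∧
      (∃ A : Set ℕ,
        Tendsto (fun N : ℕ => ((A ∩ Set.Iio N).ncard : ℝ) / (N : ℝ)) atTop (𝓝 1) ∧
        Tendsto (fun n : ℕ => F n / (Nat.totient n : ℝ)) (atTop ⊓ 𝓟 A) (𝓝 0)) ∧
      ¬ (∀ C : ℝ, Set.Infinite {x : ℕ |
          ((Set.ncard {n : ℕ | (x : ℝ) < (n : ℝ) + (Nat.totient n : ℝ) ∧
              (n : ℝ) + (Nat.totient n : ℝ) < (x : ℝ) + F x} : ℕ) : ℝ) > C * F x}) := by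
  refine ⟨F, tendsto_F, ⟨A, density_A, tendsto_ratio⟩, ?_⟩
  intro hall
  apply hall 6
  apply (Set.finite_singleton 0).subset
  intro x hx
  by_contra hx0
  have hx1 : 1 ≤ x := Nat.one_le_iff_ne_zero.mpr hx0
  have h1 := count_le x hx1
  have h2 : ((Set.ncard {n : ℕ | (x : ℝ) < (n : ℝ) + (Nat.totient n : ℝ) ∧
              (n : ℝ) + (Nat.totient n : ℝ) < (x : ℝ) + F x} : ℕ) : ℝ) > 6 * F x := hx
  linarith

end Pool.Agent.W65.TotP
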